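import Pool.Agent.H76.ADV.CO
import Pool.Agent.H76.ADV.ZZ

/-!
# NE with advice: errors cost advice, in general

The advice `a < A` and the zigzag code `z ≤ 2 h` of the census are coded by
`v = (z 2 ^ l + a) (n + 1) + l` where `l` is the length of `A`.
-/

set_option autoImplicit false

namespace Pool.Agent.H68.ADV

open Pool.Agent.H69.Sp Pool.Agent.H69.Mt Pool.Agent.H8.JS Pool.Agent.H76.ADV Classical Filter

/-- the length of the advice -/
private def len (u : ℕ) : ℕ := (Nat.unpair u).1 % (Nat.log 2 (Nat.unpair u).2 + 1)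

private theorem gr_len : GR len :=
  GR.id.fst.mod (GR.id.snd.log.add (GR.num 1))

private theorem gr_plen : GR fun u => 2 ^ len u := by
  refine GR.pow gr_len 1 fun u => ?_
  have h1 : len u < Nat.log 2 (Nat.unpair u).2 + 1 := Nat.mod_lt _ (Nat.succ_pos _)
  have h2 : (Nat.unpair u).2 ≤ u := Nat.unpair_right_le u
  rw [pow_one]
  rcases Nat.eq_zero_or_pos (Nat.unpair u).2 with h3 | h3
  · rw [h3, Nat.log_zero_right] at h1
    have h4 : len u = 0 := by omega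
    rw [h4, pow_zero]
    omega
  · have h4 : 2 ^ len u ≤ 2 ^ Nat.log 2 (Nat.unpair u).2 := Nat.pow_le_pow_right (by norm_num) (by omega)
    have h5 : 2 ^ Nat.log 2 (Nat.unpair u).2 ≤ (Nat.unpair u).2 := Nat.pow_log_le_self 2 h3.ne'
    omega

/-- the decoding -/
private noncomputable def dec (u : ℕ) : ℕ :=
  Nat.pair ((Nat.unpair u).1 / (Nat.log 2 (Nat.unpair u).2 + 1) % 2 ^ len u)
    (zgi (2 ^ Nat.log 2 (Nat.unpair u).2)
      ((Nat.unpair u).1 / (Nat.log 2 (Nat.unpair u).2 + 1) / 2 ^ len u))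

private theorem gr_dec : GR dec := by
  have h1 : GR fun u => (Nat.unpair u).1 / (Nat.log 2 (Nat.unpair u).2 + 1) :=
    GR.id.fst.div (GR.id.snd.log.add (GR.num 1))
  exact (h1.mod gr_plen).pair (GR.zgi GR.id.snd.powlog (h1.div gr_plen))

private theorem dec_eq {n l a z m x : ℕ} (hl : l ≤ n) (ha : a < 2 ^ l) (hx : Nat.log 2 x = n)
    (hz : zgi (2 ^ n) z = m) :
    dec (Nat.pair ((z * 2 ^ l + a) * (n + 1) + l) x) = Nat.pair a m := by
  have h1 : ((z * 2 ^ l + a) * (n + 1) + l) % (n + 1) = l := by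
    rw [mul_comm, Nat.mul_add_mod, Nat.mod_eq_of_lt (by omega)]
  have h2 : ((z * 2 ^ l + a) * (n + 1) + l) / (n + 1) = z * 2 ^ l + a := by
    rw [mul_comm, Nat.mul_add_div (by omega), Nat.div_eq_of_lt (by omega), add_zero]
  have h3 : (z * 2 ^ l + a) % 2 ^ l = a := by
    rw [mul_comm, Nat.mul_add_mod, Nat.mod_eq_of_lt ha]
  have h4 : (z * 2 ^ l + a) / 2 ^ l = z := by
    rw [mul_comm, Nat.mul_add_div (Nat.two_pow_pos l), Nat.div_eq_of_lt ha, add_zero]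
  unfold dec len
  simp only [Nat.unpair_pair, hx, h1, h2, h3, h4, hz]

/-- `T_EG`; neither `T_MU` nor `T_MO` is needed -/
theorem pf_EG : T_EG := by
  intro A h γ hγ hV hyp
  obtain ⟨γ', hγ'⟩ : ∃ γ' : ℝ, γ' = max γ 0 := ⟨_, rfl⟩
  have hγ0 : 0 ≤ γ' := by rw [hγ']; exact le_max_right _ _
  have hγγ : γ ≤ γ' := by rw [hγ']; exact le_max_left _ _
  have hγ1 : γ' < 1 := by rw [hγ']; exact max_lt hγ one_pos
  refine ⟨(γ' + 1) / 2, by linarith, by linarith, fun S hS => ?_⟩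
  obtain ⟨T, hT, herr⟩ := hyp S hS
  have hev := (hV.and herr).and (ev_lin (show (0 : ℝ) < (1 - γ') / 2 by linarith))
  obtain ⟨n₀, hn₀⟩ := eventually_atTop.1 hev
  refine code_sa hS hT gr_dec n₀ (fun n => Nat.two_pow_pos _) fun a n hn ha => ?_
  obtain ⟨⟨hv, he⟩, hlin⟩ := hn₀ n hn
  obtain ⟨h1, h2⟩ := cs_bd he
  have h3 := zg_le h1 h2
  obtain ⟨l, hl⟩ : ∃ l, l = Nat.clog 2 (A n) := ⟨_, rfl⟩
  have hA0 : 0 < A n := by omega
  have hl1 : A n ≤ 2 ^ l := by rw [hl]; exact Nat.le_pow_clog (by norm_num) _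
  have hl2 : 2 ^ l ≤ 2 * A n := by
    rcases Nat.lt_or_ge 1 (A n) with h4 | h4
    · have h5 := Nat.pow_pred_clog_lt_self (show 1 < 2 by norm_num) h4
      rw [← hl] at h5
      have h6 : 0 < l := by rw [hl]; exact Nat.clog_pos (by norm_num) h4
      obtain ⟨l', rfl⟩ : ∃ l', l = l' + 1 := ⟨l - 1, by omega⟩
      rw [Nat.pred_succ] at h5
      rw [pow_succ]
      omega
    · have h5 : A n = 1 := by omega
      rw [h5] at hl ⊢
      rw [hl, Nat.clog_one_right]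
      norm_num
  -- the size
  have hn0 : (0 : ℝ) ≤ n := Nat.cast_nonneg n
  have hV2 : ((A n * (2 * h n + 1) : ℕ) : ℝ) ≤ (2 : ℝ) ^ (γ' * n) :=
    hv.trans (Real.rpow_le_rpow_of_exponent_le (by norm_num) (by nlinarith))
  have hbig : 4 * ((n : ℝ) + 1) * ((A n * (2 * h n + 1) : ℕ) : ℝ) ≤
      (2 : ℝ) ^ ((γ' + 1) / 2 * n) := by
    have h4 : (2 : ℝ) ^ ((γ' + 1) / 2 * n) =
        (2 : ℝ) ^ ((1 - γ') / 2 * n) * (2 : ℝ) ^ (γ' * n) := by
      rw [← Real.rpow_add (by norm_num)]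
      congr 1
      ring
    rw [h4]
    have h5 : (0 : ℝ) < (2 : ℝ) ^ ((1 - γ') / 2 * n) := by positivity
    exact mul_le_mul (by linarith) hV2 (Nat.cast_nonneg _) h5.le
  have hfl : (2 : ℝ) ^ ((γ' + 1) / 2 * n) < 2 * ((2 ^ ⌊(γ' + 1) / 2 * n⌋₊ : ℕ) : ℝ) := by
    have h4 := Nat.lt_floor_add_one ((γ' + 1) / 2 * n)
    calc (2 : ℝ) ^ ((γ' + 1) / 2 * n) < (2 : ℝ) ^ (((⌊(γ' + 1) / 2 * n⌋₊ : ℕ) : ℝ) + 1) :=
          Real.rpow_lt_rpow_of_exponent_lt (by norm_num) h4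
      _ = _ := by
          rw [Real.rpow_add (by norm_num), Real.rpow_one, Real.rpow_natCast]
          push_cast
          ring
  have hW : 2 * (n + 1) * (A n * (2 * h n + 1)) < 2 ^ ⌊(γ' + 1) / 2 * n⌋₊ := by
    have h4 : (2 * ((n : ℝ) + 1) * ((A n * (2 * h n + 1) : ℕ) : ℝ)) <
        ((2 ^ ⌊(γ' + 1) / 2 * n⌋₊ : ℕ) : ℝ) := by linarith
    exact_mod_cast h4
  have hWn : 2 ^ ⌊(γ' + 1) / 2 * n⌋₊ ≤ 2 ^ n := by
    apply Nat.pow_le_pow_right (by norm_num)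
    apply Nat.floor_le_of_le
    nlinarith
  have hln : l ≤ n := by
    have h4 : 2 ^ l < 2 ^ n := by
      calc 2 ^ l ≤ 2 * A n := hl2
        _ ≤ 2 * (n + 1) * (A n * (2 * h n + 1)) := by
            have : A n * 1 ≤ A n * (2 * h n + 1) := Nat.mul_le_mul_left _ (by omega)
            have h5 : 1 * (A n * (2 * h n + 1)) ≤ (n + 1) * (A n * (2 * h n + 1)) :=
              Nat.mul_le_mul_right _ (by omega)
            rw [mul_assoc]
            omega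
        _ < 2 ^ ⌊(γ' + 1) / 2 * n⌋₊ := hW
        _ ≤ 2 ^ n := hWn
    exact ((Nat.pow_lt_pow_iff_right (by norm_num)).1 h4).le
  refine ⟨(zg (2 ^ n) (cs S T n) * 2 ^ l + a) * (n + 1) + l, ?_, fun x hx hlog =>
    dec_eq hln (lt_of_lt_of_le ha hl1) hlog (zgi_zg _ _)⟩
  refine lt_of_le_of_lt ?_ hW
  obtain ⟨z, hz⟩ : ∃ z, z = zg (2 ^ n) (cs S T n) := ⟨_, rfl⟩
  rw [← hz] at h3 ⊢
  have h4 : z * 2 ^ l + a + 1 ≤ (2 * h n + 1) * 2 ^ l := by
    have h5 : (z + 1) * 2 ^ l ≤ (2 * h n + 1) * 2 ^ l := Nat.mul_le_mul_right _ (by omega)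
    have h6 : a < 2 ^ l := lt_of_lt_of_le ha hl1
    rw [add_mul, one_mul] at h5
    omega
  calc (z * 2 ^ l + a) * (n + 1) + l ≤ (z * 2 ^ l + a + 1) * (n + 1) := by
        rw [add_mul (z * 2 ^ l + a) 1]
        omega
    _ ≤ ((2 * h n + 1) * 2 ^ l) * (n + 1) := Nat.mul_le_mul_right _ h4
    _ ≤ ((2 * h n + 1) * (2 * A n)) * (n + 1) :=
        Nat.mul_le_mul_right _ (Nat.mul_le_mul_left _ hl2)
    _ = _ := by ring

end Pool.Agent.H68.ADV
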