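import Pool.Agent.H76.ADV.Targets

/-!
# The zero-one law without errors
-/

set_option autoImplicit false

namespace Pool.Agent.H68.ADV.Z0

open Pool.Agent.H8.JS Pool.Agent.H69.Sp Pool.Agent.H76.ADV Filter

/-- one step: `s` bits per letter become `s * (p / q)` bits per letter -/
theorem stp (hG : T_G) (hMU : T_MU) (hMO : T_MO) (p q : ℕ) (hp : 0 < p) (hpq : p ≤ q)
    (s : ℝ) (hs : 0 ≤ s) (hsp : s < (p : ℝ) / q) (h : CA (fun n => 2 ^ ⌊s * n⌋₊)) :
    CA fun n => 2 ^ ⌊s * ((p : ℝ) / q) * n⌋₊ := by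
  have hq : 0 < q := lt_of_lt_of_le hp hpq
  have hqR : (0 : ℝ) < q := by exact_mod_cast hq
  have hM := hMU p q 0 hp hpq
  set g : ℝ := (p : ℝ) / q - s with hg
  have hg0 : 0 < g := by rw [hg]; linarith
  obtain ⟨n₀, hn₀⟩ := exists_nat_gt (((q : ℝ) + 1) / g)
  have h1 := hG (fun n => 2 ^ ⌊s * n⌋₊) (fun n => (p * n - 0) / q) q n₀ hM ?_ h
  · refine hMO _ _ 0 (fun n => by positivity) (fun n _ => ?_) h1
    refine Nat.pow_le_pow_right (by norm_num) ?_
    apply Nat.floor_le_floor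
    have h2 : (((p * n - 0) / q : ℕ) : ℝ) ≤ (p : ℝ) * n / q := by
      have := @Nat.cast_div_le ℝ _ _ _ (p * n - 0) q
      simpa using this
    calc s * (((p * n - 0) / q : ℕ) : ℝ) ≤ s * ((p : ℝ) * n / q) := by gcongr
      _ = s * ((p : ℝ) / q) * n := by ring
  · intro n hn
    have h2 : q ≤ 2 ^ q := (Nat.lt_two_pow_self).le
    have h3 : ⌊s * n⌋₊ + q ≤ (p * n - 0) / q := by
      rw [Nat.le_div_iff_mul_le hq]
      have h4 : (((⌊s * n⌋₊ + q) * q : ℕ) : ℝ) ≤ ((p * n : ℕ) : ℝ) := by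
        push_cast
        have h5 : ((⌊s * n⌋₊ : ℕ) : ℝ) ≤ s * n := Nat.floor_le (by positivity)
        have h6 : (n₀ : ℝ) ≤ n := by exact_mod_cast hn
        have h7 : ((q : ℝ) + 1) < g * n := by
          have := lt_of_lt_of_le hn₀ h6
          rw [div_lt_iff₀ hg0] at this
          linarith
        have h8 : (p : ℝ) / q * q = p := by field_simp
        have h9 : (p : ℝ) * n = (s + g) * q * n := by
          have : s + g = (p : ℝ) / q := by rw [hg]; ring
          rw [this, h8]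
        rw [h9]
        have h10 : (((⌊s * n⌋₊ : ℕ) : ℝ) + q) ≤ (s + g) * n := by nlinarith
        calc ((⌊s * n⌋₊ : ℝ) + q) * q ≤ ((s + g) * n) * q := by gcongr
          _ = (s + g) * q * n := by ring
      have h11 : (⌊s * n⌋₊ + q) * q ≤ p * n := by exact_mod_cast h4
      simpa using h11
    calc q * 2 ^ ⌊s * n⌋₊ ≤ 2 ^ q * 2 ^ ⌊s * n⌋₊ := Nat.mul_le_mul_right _ h2
      _ = 2 ^ (⌊s * n⌋₊ + q) := by rw [pow_add, mul_comm]
      _ ≤ 2 ^ ((p * n - 0) / q) := Nat.pow_le_pow_right (by norm_num) h3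

theorem exp_mono (hMO : T_MO) (s t : ℝ) (h : s ≤ t) (hc : CA fun n => 2 ^ ⌊s * n⌋₊) :
    CA fun n => 2 ^ ⌊t * n⌋₊ := by
  refine hMO _ _ 0 (fun n => by positivity) (fun n _ => ?_) hc
  exact Nat.pow_le_pow_right (by norm_num) (Nat.floor_le_floor (by gcongr))

theorem pf_Z0 (hG : T_G) (hMU : T_MU) (hMO : T_MO) : T_Z0 := by
  intro α δ hα hδ hc
  set a : ℝ := max α 0 with ha
  have ha0 : 0 ≤ a := le_max_right _ _
  have ha1 : a < 1 := max_lt hα one_pos
  obtain ⟨r, hr1, hr2⟩ := exists_rat_btwn ha1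
  have hr0 : (0 : ℝ) < r := lt_of_le_of_lt ha0 hr1
  have hr0' : 0 < r := by exact_mod_cast hr0
  have hr2' : r < 1 := by exact_mod_cast hr2
  obtain ⟨p, hp⟩ : ∃ p : ℕ, r.num = p := ⟨r.num.toNat, by
    rw [Int.toNat_of_nonneg (Rat.num_nonneg.2 hr0'.le)]⟩
  have hreq : (r : ℝ) = (p : ℝ) / (r.den : ℝ) := by
    rw [Rat.cast_def, hp]
    simp
  have hp0 : 0 < p := by
    have := Rat.num_pos.2 hr0'
    rw [hp] at this
    exact_mod_cast this
  have hden : (0 : ℝ) < (r.den : ℝ) := by exact_mod_cast r.den_pos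
  have hpq : p ≤ r.den := by
    have h1 : (p : ℝ) / (r.den : ℝ) < 1 := by rw [← hreq]; exact hr2
    rw [div_lt_one hden] at h1
    exact_mod_cast h1.le
  have hcj : ∀ j : ℕ, CA fun n => 2 ^ ⌊(a * (r : ℝ) ^ j) * n⌋₊ := by
    intro j
    induction j with
    | zero =>
      simp only [pow_zero, mul_one]
      exact exp_mono hMO _ _ (le_max_left _ _) hc
    | succ j ih =>
      have h1 : a * (r : ℝ) ^ j ≤ a := by
        have : (r : ℝ) ^ j ≤ 1 := pow_le_one₀ hr0.le hr2.le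
        nlinarith
      have h2 := stp hG hMU hMO p r.den hp0 hpq (a * (r : ℝ) ^ j) (by positivity)
        (by rw [← hreq]; linarith) ih
      rw [← hreq] at h2
      have h3 : a * (r : ℝ) ^ (j + 1) = a * (r : ℝ) ^ j * r := by ring
      rw [h3]
      exact h2
  obtain ⟨j, hj⟩ := exists_pow_lt_of_lt_one (show (0 : ℝ) < δ by exact hδ) hr2
  refine exp_mono hMO _ _ ?_ (hcj j)
  have : a * (r : ℝ) ^ j ≤ 1 * (r : ℝ) ^ j := by gcongr
  linarith

end Pool.Agent.H68.ADV.Z0
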