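import Pool.Agent.H76.ADV.Targets

/-!
# The zero-one law with errors
-/

set_option autoImplicit false

namespace Pool.Agent.H68.ADV.Z1

open Pool.Agent.H8.JS Pool.Agent.H69.Sp Pool.Agent.H76.ADV Filter

/-- the form of `T_E` with a threshold which may depend on the set -/
def TE' : Prop := ∀ A ν : ℕ → ℕ, (∀ n, ν n ≤ n) →
  IsSpectrum {z | ∃ n, z = 2 ^ n + ν n} →
  (∀ S, IsSpectrum S → ∃ T, SA A T ∧ ∀ᶠ n in atTop, 2 * er T (posCompl S) n < 2 ^ ν n) →
  CA fun n => A n * 2 ^ ν n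

/-- the zero-one law with errors -/
def TZ1' : Prop := ∀ α β δ : ℝ, 0 ≤ α → 0 ≤ β → α + β < 1 → 0 < δ →
  (∀ S, IsSpectrum S → ∃ T, SA (fun n => 2 ^ ⌊α * n⌋₊) T ∧
    ∀ᶠ n in atTop, (er T (posCompl S) n : ℝ) ≤ (2 : ℝ) ^ (β * n)) →
  CA fun n => 2 ^ ⌊δ * n⌋₊

theorem pf_Z1 (hZ : T_Z0) (hE : TE') (hMU : T_MU) (hMO : T_MO) : TZ1' := by
  intro α β δ hα hβ hαβ hδ h
  obtain ⟨r, hr1, hr2⟩ := exists_rat_btwn (show β < 1 - α by linarith)
  have hr0 : (0 : ℝ) < r := lt_of_le_of_lt hβ hr1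
  have hr0' : 0 < r := by exact_mod_cast hr0
  obtain ⟨p, hp⟩ : ∃ p : ℕ, r.num = p := ⟨r.num.toNat, by
    rw [Int.toNat_of_nonneg (Rat.num_nonneg.2 hr0'.le)]⟩
  have hreq : (r : ℝ) = (p : ℝ) / (r.den : ℝ) := by
    rw [Rat.cast_def, hp]
    simp
  have hp0 : 0 < p := by
    have := Rat.num_pos.2 hr0'
    rw [hp] at this
    exact_mod_cast this
  have hden : (0 : ℝ) < (r.den : ℝ) := by exact_mod_cast r.den_pos
  have hpq : p ≤ r.den := by
    have h1 : (p : ℝ) / (r.den : ℝ) < 1 := by rw [← hreq]; linarith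
    rw [div_lt_one hden] at h1
    exact_mod_cast h1.le
  have hM := hMU p r.den 0 hp0 hpq
  have h1 := hE (fun n => 2 ^ ⌊α * n⌋₊) (fun n => (p * n - 0) / r.den) hM.le hM.sp ?_
  · have h2 : CA fun n => 2 ^ ⌊(α + r) * n⌋₊ := by
      refine hMO _ _ 0 (fun n => by positivity) (fun n _ => ?_) h1
      rw [← pow_add]
      refine Nat.pow_le_pow_right (by norm_num) ?_
      apply Nat.le_floor
      push_cast
      have h3 : ((⌊α * n⌋₊ : ℕ) : ℝ) ≤ α * n := Nat.floor_le (by positivity)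
      have h4 : (((p * n - 0) / r.den : ℕ) : ℝ) ≤ r * n := by
        have := @Nat.cast_div_le ℝ _ _ _ (p * n - 0) r.den
        calc (((p * n - 0) / r.den : ℕ) : ℝ) ≤ ((p * n - 0 : ℕ) : ℝ) / (r.den : ℝ) := this
          _ = r * n := by
            rw [hreq, Nat.sub_zero]
            push_cast
            ring
      have h5 : (((p * n - 0) / r.den : ℕ) : ℝ) = (((p * n - 0) / r.den : ℕ) : ℝ) := rfl
      linarith
    exact hZ (α + r) δ (by linarith) hδ h2
  · intro S hS
    obtain ⟨T, hT, he⟩ := h S hS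
    refine ⟨T, hT, ?_⟩
    set g : ℝ := r - β with hg
    have hg0 : 0 < g := by rw [hg]; linarith
    obtain ⟨n₀, hn₀⟩ := exists_nat_gt ((3 : ℝ) / g)
    filter_upwards [he, eventually_ge_atTop n₀] with n hn hn'
    have h3 : (n₀ : ℝ) ≤ n := by exact_mod_cast hn'
    have h4 : (3 : ℝ) < g * n := by
      have := lt_of_lt_of_le hn₀ h3
      rw [div_lt_iff₀ hg0] at this
      linarith
    have h5 : r * n - 1 ≤ (((p * n - 0) / r.den : ℕ) : ℝ) := by
      have h6 : p * n < ((p * n - 0) / r.den + 1) * r.den := by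
        have := Nat.lt_div_mul_add r.den_pos (a := p * n)
        simp only [Nat.sub_zero]
        calc p * n < p * n / r.den * r.den + r.den := this
          _ = (p * n / r.den + 1) * r.den := by ring
      have h7 : ((p : ℝ) * n) < ((((p * n - 0) / r.den : ℕ) : ℝ) + 1) * r.den := by
        exact_mod_cast h6
      have h8 : r * n = (p : ℝ) * n / r.den := by rw [hreq]; ring
      have h9 : (p : ℝ) * n / r.den < (((p * n - 0) / r.den : ℕ) : ℝ) + 1 := by
        rw [div_lt_iff₀ hden]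
        exact h7
      linarith
    have h10 : (2 : ℝ) * (er T (posCompl S) n : ℝ) < 2 ^ ((p * n - 0) / r.den) := by
      calc (2 : ℝ) * (er T (posCompl S) n : ℝ) ≤ 2 * (2 : ℝ) ^ (β * n) := by gcongr
        _ = (2 : ℝ) ^ (1 + β * n) := by
          rw [Real.rpow_add (by norm_num), Real.rpow_one]
        _ < (2 : ℝ) ^ ((((p * n - 0) / r.den : ℕ) : ℝ)) := by
          apply Real.rpow_lt_rpow_of_exponent_lt (by norm_num)
          have : β * n + g * n = r * n := by rw [hg]; ring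
          linarith
        _ = 2 ^ ((p * n - 0) / r.den) := by rw [Real.rpow_natCast]
    exact_mod_cast h10

end Pool.Agent.H68.ADV.Z1
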